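import Pool.Agent.W424.NC.Win
import Pool.Agent.H974R2.Infinite

/-!
Crossing probabilities of rectangles for bond percolation with parameter `p`: the bridge between
the event of the infinite model and the finite probability `hh`, and the near-critical bounds.
-/

set_option maxHeartbeats 1000000

namespace TH291.NC

open H974 MeasureTheory

/-- The graph of the open edges with both ends in the rectangle `[0,w] × [0,h]`. -/
def rectGraph (w h : ℕ) (ω : sqLattice.edgeSet → Bool) : SimpleGraph (ℤ × ℤ) :=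
  SimpleGraph.fromEdgeSet {e | (∃ he : e ∈ sqLattice.edgeSet, ω ⟨e, he⟩ = true) ∧
    ∀ v ∈ e, (0 ≤ v.1 ∧ v.1 ≤ w) ∧ (0 ≤ v.2 ∧ v.2 ≤ h)}

/-- An open path of the rectangle `[0,w] × [0,h]` joins its left side to its right side. -/
def Crossed (w h : ℕ) (ω : sqLattice.edgeSet → Bool) : Prop :=
  ∃ y z : ℤ, (0 ≤ y ∧ y ≤ h) ∧ (0 ≤ z ∧ z ≤ h) ∧ (rectGraph w h ω).Reachable (0, y) ((w : ℤ), z)

theorem rectGraph_adj (w h : ℕ) (ω : sqLattice.edgeSet → Bool) (u v : ℤ × ℤ) :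
    (rectGraph w h ω).Adj u v ↔ H974.Adj ((opn ω) ∩ ↑(RE 0 w 0 h)) u v := by
  have inbox : ∀ e : Edg, e ∈ RE 0 w 0 h ↔
      (((0 ≤ (src e).1 ∧ (src e).1 ≤ (w:ℤ)) ∧ (0 ≤ (src e).2 ∧ (src e).2 ≤ (h:ℤ))) ∧
        ((0 ≤ (tgt e).1 ∧ (tgt e).1 ≤ (w:ℤ)) ∧ (0 ≤ (tgt e).2 ∧ (tgt e).2 ≤ (h:ℤ)))) := by
    rintro ⟨x, y, _ | _⟩
    · rw [mem_RE_false, src_mk, tgt_false]
      simp only
      omega
    · rw [mem_RE_true, src_mk, tgt_true]
      simp only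
      omega
  have inb2 : ∀ a b : ℤ × ℤ, (∀ v ∈ s(a, b), (0 ≤ v.1 ∧ v.1 ≤ (w:ℤ)) ∧ (0 ≤ v.2 ∧ v.2 ≤ (h:ℤ))) ↔
      (((0 ≤ a.1 ∧ a.1 ≤ (w:ℤ)) ∧ (0 ≤ a.2 ∧ a.2 ≤ (h:ℤ))) ∧
        ((0 ≤ b.1 ∧ b.1 ≤ (w:ℤ)) ∧ (0 ≤ b.2 ∧ b.2 ≤ (h:ℤ)))) := by
    intro a b
    constructor
    · intro h; exact ⟨h a (Sym2.mem_mk_left _ _), h b (Sym2.mem_mk_right _ _)⟩
    · rintro ⟨h1, h2⟩ w hw
      rcases Sym2.mem_iff.mp hw with rfl | rfl
      · exact h1
      · exact h2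
  unfold rectGraph
  rw [SimpleGraph.fromEdgeSet_adj]
  constructor
  · rintro ⟨⟨⟨he, hω⟩, hbox⟩, -⟩
    obtain ⟨e, hc⟩ := adj_edge (show sqLattice.Adj u v from (SimpleGraph.mem_edgeSet _).mp he)
    have hs : s(src e, tgt e) = s(u, v) := by
      rcases hc with ⟨h1, h2⟩ | ⟨h1, h2⟩
      · rw [h1, h2]
      · rw [h1, h2]; exact Sym2.eq_swap
    have ht : toE e = ⟨s(u, v), he⟩ := Subtype.ext hs
    refine ⟨e, ⟨?_, ?_⟩, hc⟩
    · show ω (toE e) = true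
      rw [ht]; exact hω
    · rw [Finset.mem_coe, inbox, ← inb2, hs]; exact hbox
  · rintro ⟨e, ⟨he, hb⟩, hcase⟩
    have hs : s(u, v) = s(src e, tgt e) := by
      rcases hcase with ⟨h1, h2⟩ | ⟨h1, h2⟩
      · rw [h1, h2]
      · rw [h1, h2]; exact Sym2.eq_swap
    refine ⟨?_, ?_⟩
    · show (∃ he : s(u, v) ∈ sqLattice.edgeSet, ω ⟨s(u, v), he⟩ = true) ∧
        ∀ x ∈ s(u, v), (0 ≤ x.1 ∧ x.1 ≤ (w:ℤ)) ∧ (0 ≤ x.2 ∧ x.2 ≤ (h:ℤ))
      rw [hs]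
      refine ⟨⟨edge_mem e, he⟩, ?_⟩
      rw [inb2, ← inbox]; exact Finset.mem_coe.mp hb
    · rintro rfl
      exact Adj_irrefl (⟨e, he, hcase⟩ : H974.Adj (opn ω) u u)

theorem rectGraph_reach (w h : ℕ) (ω : sqLattice.edgeSet → Bool) (u v : ℤ × ℤ) :
    (rectGraph w h ω).Reachable u v ↔ Reach ((opn ω) ∩ ↑(RE 0 w 0 h)) u v := by
  rw [SimpleGraph.reachable_iff_reflTransGen]
  have : (rectGraph w h ω).Adj = H974.Adj ((opn ω) ∩ ↑(RE 0 w 0 h)) := by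
    funext u v
    exact propext (rectGraph_adj w h ω u v)
  rw [this]
  rfl

theorem cross_eq (p : unitInterval) {w : ℕ} (h : ℕ) (hw : 1 ≤ w) :
    (bondLaw p).real {ω | Crossed w h ω} = hh p w h := by
  have e : {ω | Crossed w h ω} =
      {ω : sqLattice.edgeSet → Bool | LRc 0 w 0 h (FF (LRE 0 w 0 h) ω)} := by
    ext ω
    have hF : (↑(FF (LRE 0 w 0 h) ω) : Set Edg) = (opn ω) ∩ ↑(LRE 0 w 0 h) :=
      FF_coe (LRE 0 w 0 h) ω
    show Crossed w h ω ↔ LRc 0 w 0 h (FF (LRE 0 w 0 h) ω)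
    constructor
    · rintro ⟨y, z, hy, hz, hr⟩
      have hr' := (rectGraph_reach w h ω _ _).mp hr
      obtain ⟨y1, y2, h1, h2, h3, -⟩ := sub_LR (a := 0) (b := (w:ℤ)) (c := 0) (d := (h:ℤ))
        (by exact_mod_cast hw)
        (fun x y hG _ _ => by
          have h4 := Finset.mem_coe.mp hG.2
          rw [mem_RE_true] at h4
          omega)
        (fun x y hG _ _ => by
          have h4 := Finset.mem_coe.mp hG.2
          rw [mem_RE_false] at h4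
          omega) hr' le_rfl le_rfl
      refine ⟨y1, y2, h1, h2, Reach.mono ?_ h3⟩
      rintro e ⟨⟨h4, -⟩, h5⟩
      exact ⟨(Set.ext_iff.mp hF e).mpr ⟨h4, h5⟩, h5⟩
    · rintro ⟨y, z, hy, hz, hr⟩
      refine ⟨y, z, hy, hz, (rectGraph_reach w h ω _ _).mpr (Reach.mono ?_ hr)⟩
      rintro e ⟨h4, h5⟩
      exact ⟨((Set.ext_iff.mp hF e).mp h4).1, by exact_mod_cast LRE_subset_RE (Finset.mem_coe.mp h5)⟩
  rw [e]
  exact law_event p (LRE 0 w 0 h) (LRc 0 w 0 h)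

/-- The near-critical crossing probabilities, on both sides of the critical point. -/
theorem window (K : ℕ) (hK : 1 ≤ K) : ∃ c C : ℝ, 0 < c ∧ 0 < C ∧
    ∀ p : unitInterval, ∀ w h : ℕ, 1 ≤ w → 1 ≤ h → w ≤ K * h → h ≤ K * w →
      ((1/4 : ℝ) ≤ p → (p:ℝ) ≤ 1/2 →
        c * Real.exp (-(C * (w * (1/2 - (p:ℝ))^(4/3 : ℝ)))) ≤ (bondLaw p).real {ω | Crossed w h ω} ∧
        (bondLaw p).real {ω | Crossed w h ω} ≤ C * Real.exp (-(c * (w * (1/2 - (p:ℝ))^(4/3 : ℝ))))) ∧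
      ((1/2 : ℝ) ≤ p → (p:ℝ) ≤ 3/4 →
        c * Real.exp (-(C * (w * ((p:ℝ) - 1/2)^(4/3 : ℝ)))) ≤
          1 - (bondLaw p).real {ω | Crossed w h ω} ∧
        1 - (bondLaw p).real {ω | Crossed w h ω} ≤
          C * Real.exp (-(c * (w * ((p:ℝ) - 1/2)^(4/3 : ℝ))))) := by
  obtain ⟨c1, C1, hc1, hC1, h1⟩ := Pool.Agent.W424.NC.win_upper K hK
  obtain ⟨c2, C2, hc2, hC2, h2⟩ := Pool.Agent.W424.NC.win_lower K hK
  obtain ⟨c3, C3, hc3, hC3, h3⟩ := Pool.Agent.W424.NC.win_upper_dual K hK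
  obtain ⟨c4, C4, hc4, hC4, h4⟩ := Pool.Agent.W424.NC.win_lower_dual K hK
  obtain ⟨c, hc⟩ : ∃ c : ℝ, c = min (min c1 c2) (min c3 c4) := ⟨_, rfl⟩
  obtain ⟨C, hC⟩ : ∃ C : ℝ, C = max (max C1 C2) (max C3 C4) := ⟨_, rfl⟩
  have hc0 : 0 < c := by rw [hc]; exact lt_min (lt_min hc1 hc2) (lt_min hc3 hc4)
  have i1 : c ≤ c1 := by rw [hc]; exact (min_le_left _ _).trans (min_le_left _ _)
  have i2 : c ≤ c2 := by rw [hc]; exact (min_le_left _ _).trans (min_le_right _ _)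
  have i3 : c ≤ c3 := by rw [hc]; exact (min_le_right _ _).trans (min_le_left _ _)
  have i4 : c ≤ c4 := by rw [hc]; exact (min_le_right _ _).trans (min_le_right _ _)
  have j1 : C1 ≤ C := by rw [hC]; exact (le_max_left _ _).trans (le_max_left _ _)
  have j2 : C2 ≤ C := by rw [hC]; exact (le_max_right _ _).trans (le_max_left _ _)
  have j3 : C3 ≤ C := by rw [hC]; exact (le_max_left _ _).trans (le_max_right _ _)
  have j4 : C4 ≤ C := by rw [hC]; exact (le_max_right _ _).trans (le_max_right _ _)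
  have hC0 : 0 < C := lt_of_lt_of_le hC1 j1
  have up : ∀ {y a b : ℝ}, 0 ≤ y → c ≤ a → 0 < b → b ≤ C →
      b * Real.exp (-(a * y)) ≤ C * Real.exp (-(c * y)) := by
    intro y a b hy ha hb hbC
    have e1 : Real.exp (-(a * y)) ≤ Real.exp (-(c * y)) := by
      apply Real.exp_le_exp.mpr
      have := mul_le_mul_of_nonneg_right ha hy
      linarith
    exact mul_le_mul hbC e1 (Real.exp_pos _).le hC0.le
  have lo : ∀ {y a b : ℝ}, 0 ≤ y → c ≤ a → b ≤ C →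
      c * Real.exp (-(C * y)) ≤ a * Real.exp (-(b * y)) := by
    intro y a b hy ha hbC
    have e1 : Real.exp (-(C * y)) ≤ Real.exp (-(b * y)) := by
      apply Real.exp_le_exp.mpr
      have := mul_le_mul_of_nonneg_right hbC hy
      linarith
    exact mul_le_mul ha e1 (Real.exp_pos _).le (hc0.le.trans ha)
  refine ⟨c, C, hc0, hC0, ?_⟩
  intro p w h hw hh1 hwh hhw
  rw [cross_eq p h hw]
  constructor
  · intro hp1 hp2
    have hy : 0 ≤ (w:ℝ) * (1/2 - (p:ℝ))^(4/3 : ℝ) :=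
      mul_nonneg (by positivity) (Real.rpow_nonneg (by linarith) _)
    exact ⟨(lo hy i2 j2).trans (h2 p hp1 hp2 w h hw hh1 hwh hhw),
      (h1 p (by linarith) hp2 w h hw hwh hhw).trans (up hy i1 hC1 j1)⟩
  · intro hp1 hp2
    have hy : 0 ≤ (w:ℝ) * ((p:ℝ) - 1/2)^(4/3 : ℝ) :=
      mul_nonneg (by positivity) (Real.rpow_nonneg (by linarith) _)
    have e : (1:ℝ)/2 - (1 - (p:ℝ)) = (p:ℝ) - 1/2 := by ring
    have e' : (1:ℝ) - (1 - (p:ℝ)) = p := by ring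
    have k3 := h3 (1 - (p:ℝ)) (by linarith) (by linarith) w h hw hh1 hwh hhw
    have k4 := h4 (1 - (p:ℝ)) (by linarith) (by linarith) w h hw hh1 hwh hhw
    rw [e, e'] at k3 k4
    exact ⟨(lo hy i4 j4).trans k4, k3.trans (up hy i3 hC3 j3)⟩

end TH291.NC
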