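import Pool.Agent.W424.NC.Corr

/-!
Lower bound for the mean cluster size below the critical point, up to constants.
-/

set_option maxHeartbeats 1000000

namespace TH291.NC

open H31K H974 Finset MeasureTheory Filter Topology

theorem sum_tau_le (p : unitInterval) (B : Finset Vtx) :
    ENNReal.ofReal (∑ x ∈ B, tau p x) ≤ sigma p := by
  have h1 : Tendsto (fun N : ℕ => ∑ x ∈ B, Pr (fun _ => (p:ℝ)) (boxE N) (TP x)) atTop
      (𝓝 (∑ x ∈ B, tau p x)) :=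
    tendsto_finset_sum _ fun x _ => Pool.Agent.W424.NC.tau_tendsto p x
  have h2 := ENNReal.tendsto_ofReal h1
  exact le_of_tendsto' h2 fun N => sigma_ge p (boxE N) B

theorem one_le_sigma (p : unitInterval) : 1 ≤ sigma p := by
  unfold sigma
  have h1 : ∫⁻ _ω, (1 : ENNReal) ∂(bondLaw p) = 1 := by
    rw [lintegral_one, measure_univ]
  rw [← h1]
  refine lintegral_mono fun ω => ?_
  have h2 : (cluster0 ω).Nonempty := ⟨(0, 0), SimpleGraph.Reachable.refl _⟩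
  have h3 : (1 : ℕ∞) ≤ (cluster0 ω).encard := Set.one_le_encard_iff_nonempty.mpr h2
  have h4 := ENat.toENNReal_le.mpr h3
  simpa using h4

theorem sigma_lower : ∃ c : ℝ, 0 < c ∧ ∀ p : unitInterval,
    (p : ℝ) < 1/2 → ENNReal.ofReal (c * (1/2 - (p:ℝ))^(-(43/18) : ℝ)) ≤ sigma p := by
  obtain ⟨c, C, hc, hC, h⟩ := Pool.Agent.W424.NC.tau_lower
  obtain ⟨c1, hc1⟩ : ∃ c1 : ℝ, c1 = c * 2^(-(5/24) : ℝ) * Real.exp (-C) * 2^(-(43/24) : ℝ) :=
    ⟨_, rfl⟩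
  have hc10 : 0 < c1 := by rw [hc1]; positivity
  obtain ⟨c2, hc2⟩ : ∃ c2 : ℝ, c2 = (1/4 : ℝ)^(43/18 : ℝ) := ⟨_, rfl⟩
  have hc20 : 0 < c2 := by rw [hc2]; positivity
  refine ⟨min c1 c2, lt_min hc10 hc20, ?_⟩
  intro p hp
  obtain ⟨s, hs⟩ : ∃ s : ℝ, s = 1/2 - (p:ℝ) := ⟨_, rfl⟩
  have hs0 : 0 < s := by rw [hs]; linarith
  have hs1 : s ≤ 1/2 := by have := p.2.1; rw [hs]; linarith
  rw [← hs]
  have hsp : 0 < s^(-(43/18) : ℝ) := Real.rpow_pos_of_pos hs0 _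
  rcases lt_or_ge (p:ℝ) (1/4) with hq | hq
  · refine le_trans ?_ (one_le_sigma p)
    rw [← ENNReal.ofReal_one]
    apply ENNReal.ofReal_le_ofReal
    have h1 : (1/4 : ℝ) ≤ s := by rw [hs]; linarith
    have h2 : s^(-(43/18) : ℝ) ≤ (1/4 : ℝ)^(-(43/18) : ℝ) :=
      Real.rpow_le_rpow_of_nonpos (by norm_num) h1 (by norm_num)
    calc min c1 c2 * s^(-(43/18) : ℝ) ≤ c2 * (1/4 : ℝ)^(-(43/18) : ℝ) :=
          mul_le_mul (min_le_right _ _) h2 hsp.le hc20.le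
      _ = 1 := by
          rw [hc2, ← Real.rpow_add (by norm_num)]
          norm_num
  · obtain ⟨y, hy⟩ : ∃ y : ℝ, y = s^(-(4/3) : ℝ) := ⟨_, rfl⟩
    have hy1 : 1 ≤ y := by
      rw [hy]
      exact Real.one_le_rpow_of_pos_of_le_one_of_nonpos hs0 (by linarith) (by norm_num)
    obtain ⟨R, hR⟩ : ∃ R : ℕ, R = ⌊y⌋₊ := ⟨_, rfl⟩
    have hR1 : 1 ≤ R := by rw [hR]; exact Nat.le_floor (by exact_mod_cast hy1)
    have hR1' : (1:ℝ) ≤ R := by exact_mod_cast hR1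
    have hR0 : (0:ℝ) < R := by linarith
    have hRy : (R:ℝ) ≤ y := by rw [hR]; exact Nat.floor_le (by linarith)
    have hyR : y ≤ 2 * R := by
      have := Nat.lt_floor_add_one y
      rw [← hR] at this
      linarith
    refine le_trans ?_ (sum_tau_le p (Finset.Icc (-(R:ℤ)) R ×ˢ Finset.Icc (-(R:ℤ)) R))
    apply ENNReal.ofReal_le_ofReal
    have hRs : (R:ℝ) * s^(4/3 : ℝ) ≤ 1 := by
      have h1 : y * s^(4/3 : ℝ) = 1 := by
        rw [hy, ← Real.rpow_add hs0]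
        norm_num
      have h2 : 0 < s^(4/3 : ℝ) := by positivity
      calc (R:ℝ) * s^(4/3 : ℝ) ≤ y * s^(4/3 : ℝ) := mul_le_mul_of_nonneg_right hRy h2.le
        _ = 1 := h1
    have hx : ∀ x ∈ (Finset.Icc (-(R:ℤ)) R ×ˢ Finset.Icc (-(R:ℤ)) R),
        c * (2 * (R:ℝ))^(-(5/24) : ℝ) * Real.exp (-C) ≤ tau p x := by
      intro x hx
      rw [Finset.mem_product, Finset.mem_Icc, Finset.mem_Icc] at hx
      have hn : Pool.Agent.W424.NC.nrm x ≤ R := by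
        unfold Pool.Agent.W424.NC.nrm
        omega
      have hn' : (Pool.Agent.W424.NC.nrm x : ℝ) ≤ R := by exact_mod_cast hn
      have hn0 : (0:ℝ) ≤ (Pool.Agent.W424.NC.nrm x : ℝ) := by positivity
      refine le_trans ?_ (h p hq hp.le x)
      rw [← hs]
      have e1 : (2 * (R:ℝ))^(-(5/24) : ℝ) ≤ ((Pool.Agent.W424.NC.nrm x : ℝ) + 1)^(-(5/24) : ℝ) :=
        Real.rpow_le_rpow_of_nonpos (by positivity) (by linarith) (by norm_num)
      have e2 : Real.exp (-C) ≤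
          Real.exp (-(C * ((Pool.Agent.W424.NC.nrm x : ℝ) * s^(4/3 : ℝ)))) := by
        apply Real.exp_le_exp.mpr
        have h2 : 0 < s^(4/3 : ℝ) := by positivity
        have h3 : (Pool.Agent.W424.NC.nrm x : ℝ) * s^(4/3 : ℝ) ≤ 1 :=
          (mul_le_mul_of_nonneg_right hn' h2.le).trans hRs
        nlinarith
      have h4 : 0 < ((Pool.Agent.W424.NC.nrm x : ℝ) + 1)^(-(5/24) : ℝ) := by positivity
      exact mul_le_mul (mul_le_mul_of_nonneg_left e1 hc.le) e2 (Real.exp_pos _).le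
        (by positivity)
    have hcard := Finset.card_nsmul_le_sum _ _ _ hx
    refine le_trans ?_ hcard
    have hcd : (R:ℝ)^2 ≤ ((Finset.Icc (-(R:ℤ)) R ×ˢ Finset.Icc (-(R:ℤ)) R).card : ℝ) := by
      rw [Finset.card_product]
      have e : (Finset.Icc (-(R:ℤ)) R).card = 2 * R + 1 := by
        rw [Int.card_Icc]; omega
      rw [e]
      push_cast
      nlinarith
    rw [nsmul_eq_mul]
    have hm : (0:ℝ) ≤ c * (2 * (R:ℝ))^(-(5/24) : ℝ) * Real.exp (-C) := by positivity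
    refine le_trans ?_ (mul_le_mul_of_nonneg_right hcd hm)
    have hy0 : 0 < y := by linarith
    have e1 : s^(-(43/18) : ℝ) = y^(43/24 : ℝ) := by
      rw [hy, ← Real.rpow_mul hs0.le]
      norm_num
    have e2 : (y / 2)^(43/24 : ℝ) ≤ (R:ℝ)^(43/24 : ℝ) :=
      Real.rpow_le_rpow (by positivity) (by linarith) (by norm_num)
    have e3 : (y / 2)^(43/24 : ℝ) = 2^(-(43/24) : ℝ) * y^(43/24 : ℝ) := by
      rw [Real.div_rpow hy0.le (by norm_num), Real.rpow_neg (by norm_num : (0:ℝ) ≤ 2)]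
      ring
    have e4 : (R:ℝ)^2 * (2 * (R:ℝ))^(-(5/24) : ℝ) = 2^(-(5/24) : ℝ) * (R:ℝ)^(43/24 : ℝ) := by
      rw [Real.mul_rpow (by norm_num) hR0.le, ← Real.rpow_natCast]
      have : (R:ℝ)^((2:ℕ) : ℝ) * ((2:ℝ)^(-(5/24) : ℝ) * (R:ℝ)^(-(5/24) : ℝ)) =
          2^(-(5/24) : ℝ) * ((R:ℝ)^((2:ℕ) : ℝ) * (R:ℝ)^(-(5/24) : ℝ)) := by ring
      rw [this, ← Real.rpow_add hR0]
      norm_num
    rw [e1]
    calc min c1 c2 * y^(43/24 : ℝ) ≤ c1 * y^(43/24 : ℝ) :=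
          mul_le_mul_of_nonneg_right (min_le_left _ _) (by positivity)
      _ = c * 2^(-(5/24) : ℝ) * Real.exp (-C) * (2^(-(43/24) : ℝ) * y^(43/24 : ℝ)) := by
          rw [hc1]; ring
      _ ≤ c * 2^(-(5/24) : ℝ) * Real.exp (-C) * (R:ℝ)^(43/24 : ℝ) := by
          rw [← e3]
          exact mul_le_mul_of_nonneg_left e2 (by positivity)
      _ = c * (2^(-(5/24) : ℝ) * (R:ℝ)^(43/24 : ℝ)) * Real.exp (-C) := by ring
      _ = c * ((R:ℝ)^2 * (2 * (R:ℝ))^(-(5/24) : ℝ)) * Real.exp (-C) := by rw [e4]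
      _ = (R:ℝ)^2 * (c * (2 * (R:ℝ))^(-(5/24) : ℝ) * Real.exp (-C)) := by ring

end TH291.NC
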