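import Pool.Agent.W424.NC.Corr
import Pool.Agent.H974R5.Exps

/-!
The percolation probability above the critical point, up to constants: `(p - 1/2)^(5/36)`.
-/

set_option maxHeartbeats 1000000

namespace TH291.NC

open H31K H974 Finset

theorem theta_upper : ∃ C : ℝ, 0 < C ∧ ∀ p : unitInterval,
    (1/2 : ℝ) < p → theta p ≤ C * ((p:ℝ) - 1/2)^(5/36 : ℝ) := by
  obtain ⟨κ0, b, hκ0, hb, hst⟩ := Pool.Agent.W424.NC.armS
  obtain ⟨c1, C, hc1, hC, harm⟩ := Pool.Agent.W424.NC.arm_crit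
  refine ⟨3 * C * (2:ℝ)^(5/48 : ℝ) * b^(-(5/36) : ℝ) + b^(-(5/36) : ℝ), by positivity, ?_⟩
  intro p hp
  set s : ℝ := (p:ℝ) - 1/2 with hs
  have hs0 : 0 < s := by rw [hs]; linarith
  have hs1 : s ≤ 1/2 := by have := p.2.2; rw [hs]; linarith
  have hse : 0 < s^(5/36 : ℝ) := Real.rpow_pos_of_pos hs0 _
  have hbp : 0 < b^(-(5/36) : ℝ) := Real.rpow_pos_of_pos hb _
  rcases lt_or_ge b s with hks | hks
  · have h2 : b^(5/36 : ℝ) ≤ s^(5/36 : ℝ) := Real.rpow_le_rpow hb.le hks.le (by norm_num)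
    have h3 : 1 ≤ b^(-(5/36) : ℝ) * s^(5/36 : ℝ) := by
      rw [Real.rpow_neg hb.le, ← div_eq_inv_mul, le_div_iff₀ (Real.rpow_pos_of_pos hb _), one_mul]
      exact h2
    calc theta p ≤ 1 := theta_le_one p
      _ ≤ b^(-(5/36) : ℝ) * s^(5/36 : ℝ) := h3
      _ ≤ _ := by
          apply mul_le_mul_of_nonneg_right _ hse.le
          have : 0 < 3 * C * (2:ℝ)^(5/48 : ℝ) * b^(-(5/36) : ℝ) := by positivity
          linarith
  · set x : ℝ := (b/s)^(4/3 : ℝ) with hx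
    have hks1 : 1 ≤ b/s := by rw [le_div_iff₀ hs0, one_mul]; exact hks
    have hx1 : 1 ≤ x := Real.one_le_rpow hks1 (by norm_num)
    have hxa : x^(3/4 : ℝ) = b/s := by
      rw [hx, ← Real.rpow_mul (by positivity)]
      norm_num
    set n : ℕ := ⌊x⌋₊ with hn
    have hn1 : 1 ≤ n := Nat.le_floor (by exact_mod_cast hx1)
    have hn1' : (1:ℝ) ≤ n := by exact_mod_cast hn1
    have hn0 : (0:ℝ) < n := by linarith
    have hnx : (n:ℝ) ≤ x := Nat.floor_le (by linarith)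
    have hxn : x ≤ 2 * n := by
      have := Nat.lt_floor_add_one x
      have h3 : x < n + 1 := this
      linarith
    have hwin : |(p:ℝ) - 1/2| ≤ b * (n:ℝ)^(-(3/4 : ℝ)) := by
      rw [abs_of_pos hs0]
      have h3 : (n:ℝ)^(3/4 : ℝ) ≤ b/s := by
        rw [← hxa]; exact Real.rpow_le_rpow (by positivity) hnx (by norm_num)
      rw [Real.rpow_neg hn0.le, ← div_eq_mul_inv, le_div_iff₀ (by positivity)]
      rw [le_div_iff₀ hs0] at h3
      linarith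
    obtain ⟨_, h5, _⟩ := hst n hn1 p hwin
    have h6 := (harm n hn1).2
    have h7 : (n:ℝ)^(-(5/48) : ℝ) ≤ (2:ℝ)^(5/48 : ℝ) * (b^(-(5/36) : ℝ) * s^(5/36 : ℝ)) := by
      calc (n:ℝ)^(-(5/48) : ℝ) ≤ (x/2)^(-(5/48) : ℝ) :=
            Real.rpow_le_rpow_of_nonpos (by positivity) (by linarith) (by norm_num)
        _ = (2:ℝ)^(5/48 : ℝ) * (b/s)^(-(5/36) : ℝ) := by
            rw [Real.div_rpow (by linarith) (by norm_num), hx, ← Real.rpow_mul (by positivity),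
              Real.rpow_neg (by norm_num : (0:ℝ) ≤ 2), div_inv_eq_mul, mul_comm]
            norm_num
        _ = (2:ℝ)^(5/48 : ℝ) * (b^(-(5/36) : ℝ) * s^(5/36 : ℝ)) := by
            rw [Real.div_rpow hb.le hs0.le, Real.rpow_neg hs0.le, div_inv_eq_mul]
    calc theta p ≤ arm p n := theta_le_arm p n
      _ ≤ 3 * arm (1/2) n := h5
      _ ≤ 3 * (C * (n:ℝ)^(-(5/48) : ℝ)) := by linarith
      _ ≤ 3 * (C * ((2:ℝ)^(5/48 : ℝ) * (b^(-(5/36) : ℝ) * s^(5/36 : ℝ)))) := by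
          have := mul_le_mul_of_nonneg_left h7 hC.le
          linarith
      _ = (3 * C * (2:ℝ)^(5/48 : ℝ) * b^(-(5/36) : ℝ)) * s^(5/36 : ℝ) := by ring
      _ ≤ _ := by
          apply mul_le_mul_of_nonneg_right _ hse.le
          linarith

theorem theta_lower : ∃ c : ℝ, 0 < c ∧ ∀ p : unitInterval,
    (1/2 : ℝ) < p → c * ((p:ℝ) - 1/2)^(5/36 : ℝ) ≤ theta p := by
  obtain ⟨E, hE, hfarS⟩ := Pool.Agent.W424.NC.farS
  obtain ⟨c1, C, hc1, hC, harm⟩ := Pool.Agent.W424.NC.arm_crit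
  refine ⟨1/2 * (c1 * (2 * (E + 3))^(-(5/48) : ℝ)), by positivity, ?_⟩
  intro p hp
  set s : ℝ := (p:ℝ) - 1/2 with hs
  have hs0 : 0 < s := by rw [hs]; linarith
  have hs1 : s ≤ 1/2 := by have := p.2.2; rw [hs]; linarith
  set x : ℝ := s^(-(4/3 : ℝ)) with hx
  have hx1 : 1 ≤ x := Real.one_le_rpow_of_pos_of_le_one_of_nonpos hs0 (by linarith) (by norm_num)
  set N : ℕ := ⌈E * x⌉₊ + 2 with hN
  have hEx : 0 ≤ E * x := by positivity
  have hNx : E * x ≤ N := by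
    have := Nat.le_ceil (E * x)
    rw [hN]; push_cast
    linarith
  have hNle : (N:ℝ) ≤ (E + 3) * x := by
    have := Nat.ceil_lt_add_one (a := E * x) hEx
    rw [hN]; push_cast
    nlinarith
  have hN0 : (0:ℝ) < N := by
    have : 0 < E * x := by positivity
    linarith
  have hfar : eps p N ≤ 1/100 := hfarS p hp p.2.2 N hNx
  have h5 : 1/2 * arm p (2 * N) ≤ theta p :=
    le_theta p (fun m => arm_chain p.2.1 p.2.2 (by omega) hfar m)
  have h6 : arm (1/2) (2 * N) ≤ arm p (2 * N) :=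
    arm_mono_param (by norm_num) hp.le p.2.2 _
  have h7 := (harm (2 * N) (by omega)).1
  have h9 : (2 * (E + 3))^(-(5/48) : ℝ) * s^(5/36 : ℝ) ≤ ((2 * N : ℕ) : ℝ)^(-(5/48) : ℝ) := by
    have h11 : ((2 * N : ℕ) : ℝ) ≤ (2 * (E + 3)) * x := by push_cast; linarith
    calc (2 * (E + 3))^(-(5/48) : ℝ) * s^(5/36 : ℝ)
        = (2 * (E + 3))^(-(5/48) : ℝ) * x^(-(5/48) : ℝ) := by
          rw [hx, ← Real.rpow_mul hs0.le]
          norm_num
      _ = ((2 * (E + 3)) * x)^(-(5/48) : ℝ) :=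
          (Real.mul_rpow (x := 2 * (E + 3)) (y := x) (by positivity) (by linarith)).symm
      _ ≤ ((2 * N : ℕ) : ℝ)^(-(5/48) : ℝ) :=
          Real.rpow_le_rpow_of_nonpos (by push_cast; linarith) h11 (by norm_num)
  calc 1/2 * (c1 * (2 * (E + 3))^(-(5/48) : ℝ)) * s^(5/36 : ℝ)
      = 1/2 * (c1 * ((2 * (E + 3))^(-(5/48) : ℝ) * s^(5/36 : ℝ))) := by ring
    _ ≤ 1/2 * (c1 * ((2 * N : ℕ) : ℝ)^(-(5/48) : ℝ)) := by
        have := mul_le_mul_of_nonneg_left h9 hc1.le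
        linarith
    _ ≤ 1/2 * arm p (2 * N) := by linarith
    _ ≤ theta p := h5

end TH291.NC
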